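import Pool.Agent.W541.DL.Stm

/-!
# DL-SUPER: superadditivity of last passage values
-/

namespace Pool.Agent.W599.DL.SUPER

open Pool.Agent.W541.DL

lemma paths_nonempty (n : ℕ) (s t : ℝ) (hst : s ≤ t) (h0 : n = 0 → s = t) :
    (paths n s t).Nonempty := by
  refine ⟨fun k => if k = 0 then s else t, ?_, ?_, ?_⟩
  · intro i j hij
    by_cases hj : j = 0
    · have hi : i = 0 := by omega
      simp [hi, hj]
    · by_cases hi : i = 0
      · simp [hi, hj, hst]
      · simp [hi, hj]
  · simp
  · by_cases hn : n = 0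
    · simp [hn, h0 hn]
    · simp [hn]

lemma concat (w : ℕ → ℝ → ℝ) (m m' : ℕ) (s t r : ℝ) (τ σ : ℕ → ℝ)
    (hτ : τ ∈ paths m s t) (hσ : σ ∈ paths m' t r) :
    ∃ ρ ∈ paths (m + m') s r, pathVal w (m + m') ρ =
      pathVal w m τ + pathVal (fun k => w (m + k)) m' σ := by
  obtain ⟨hm, h0, h1⟩ := hτ
  obtain ⟨gm, g0, g1⟩ := hσ
  have key : ∀ k, (if m + k ≤ m then τ (m + k) else σ (m + k - m)) = σ k := by
    intro k
    by_cases hk : k = 0
    · subst hk; simp [h1, g0]
    · rw [if_neg (by omega)]
      congr 1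
      omega
  refine ⟨fun k => if k ≤ m then τ k else σ (k - m), ⟨?_, ?_, ?_⟩, ?_⟩
  · intro i j hij
    simp only
    by_cases hj : j ≤ m
    · rw [if_pos hj, if_pos (by omega)]
      exact hm hij
    · rw [if_neg hj]
      by_cases hi : i ≤ m
      · rw [if_pos hi]
        calc τ i ≤ τ m := hm hi
          _ = σ 0 := by rw [h1, g0]
          _ ≤ σ (j - m) := gm (Nat.zero_le _)
      · rw [if_neg hi]
        exact gm (by omega)
  · simp [h0]
  · have := key m'
    rw [g1] at this
    exact this
  · unfold pathVal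
    rw [Finset.sum_range_add]
    congr 1
    · refine Finset.sum_congr rfl fun k hk => ?_
      have hk' := Finset.mem_range.1 hk
      simp only
      rw [if_pos (by omega), if_pos (by omega)]
    · refine Finset.sum_congr rfl fun k hk => ?_
      have e1 := key (k + 1)
      have e2 := key k
      simp only
      rw [e2, show m + k + 1 = m + (k + 1) by ring, e1]

theorem main : S_BDD → S_SUPER := by
  intro hB w m m' s t r hw hst htr h0 h0'
  have hne1 : (pathVal w m '' paths m s t).Nonempty := (paths_nonempty m s t hst h0).image _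
  have hne2 : (pathVal (fun k => w (m + k)) m' '' paths m' t r).Nonempty :=
    (paths_nonempty m' t r htr h0').image _
  have hbd := hB w (m + m') s r hw
  have hmain : ∀ a ∈ pathVal w m '' paths m s t,
      ∀ b ∈ pathVal (fun k => w (m + k)) m' '' paths m' t r, a + b ≤ blpp w (m + m') s r := by
    rintro a ⟨τ, hτ, rfl⟩ b ⟨σ, hσ, rfl⟩
    obtain ⟨ρ, hρ, he⟩ := concat w m m' s t r τ σ hτ hσ
    rw [← he]
    exact le_csSup hbd ⟨ρ, hρ, rfl⟩
  have h1 : blpp w m s t ≤ blpp w (m + m') s r - blpp (fun k => w (m + k)) m' t r := by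
    refine csSup_le hne1 fun a ha => ?_
    have h2 : blpp (fun k => w (m + k)) m' t r ≤ blpp w (m + m') s r - a := by
      refine csSup_le hne2 fun b hb => ?_
      have := hmain a ha b hb
      linarith
    linarith
  linarith

end Pool.Agent.W599.DL.SUPER
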